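import Mathlib

/-!
# MP_5ee2d0_ag, numerical dimension one: the first and the last step

`T` is a very general complete curve in the base, `π : Y → T` the family of models over it, `X_t` a very
general fibre, `P` its Picard group. `N` is a Cartier class of `Y`, nef over `T`, its restriction `L` to
`X_t` has numerical dimension one (it is not numerically trivial; this is used in `index` and `zariski`);
`F` is a fibre. `W → Y` is a resolution, an isomorphism over general
points of `T`, such that the fibres of `W` over `T` have normal crossings, and `i_*` is the Gysin map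
of `X_t` in `W`. `Zero k v` says that `k N^2 + i_* v` is zero in `H^4(W, ℚ)`; this does not depend on
`W`. `Psef x z` says that `x N + z F` is pseudoeffective.
-/

namespace Pool.Agent.H60.N1

/-- The first step: Hodge theory on `W`. `N4` is the number `N^4`. -/
structure Hodge {P : Type} [AddCommGroup P] (T : P → P → P → ℤ) (L : P) (N4 : ℤ)
    (Zero : ℤ → P → Prop) where
  /-- the number of the components `W_i` of the singular fibres of `W`, and their multiplicities -/
  r : ℕ
  mult : Fin r → ℤ
  mult_pos : ∀ i, 0 < mult i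
  /-- the intersection number `N.N.A.W_i`, where `A` is an ample class of `W` -/
  nn : Fin r → ℤ
  /-- `N` is nef on `W_i` -/
  nn_nonneg : ∀ i, 0 ≤ nn i
  /-- the restriction of `A` to `X_t` -/
  A : P
  /-- the number of the singular fibres -/
  s : ℤ
  nn_sum : ∑ i, mult i * nn i = s * T L L A
  /-- `N^2` is zero in the fourth cohomology group of every fibre of `W` -/
  Fib : Prop
  /-- On `X_t` this is `L^2 = 0`. If `N.N.A.W_i = 0` then `N.N` is zero on all divisors of `W_i`, since
  `N` is nef on `W_i`, so `N^2 = 0` in `H^4(W_i, ℚ)` (hard Lefschetz and Hodge index theorem). The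
  restriction of `N^2` to a singular fibre is in the image of the pure Hodge structure `H^4(W)` and in
  the kernel of the restriction to the `W_i`, the part of weight at most three (Deligne). -/
  fib : (∀ y, T L L y = 0) → (∀ i, nn i = 0) → Fib
  /-- `N^2.A` is in `i_* H^4(X_t, ℚ)` -/
  Ler : Prop
  /-- Leray filtration of `H^6(W, ℚ)`: the class is in the first step, which is equal to the second
  step, because `H^5(X_t) = 0` and so `R^5` has finite support; the second step is the image of
  `H^2(T, R^4)`, which is `i_* H^4(X_t, ℚ)`. -/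
  ler : Fib → Ler
  /-- `k N^2 + i_* v` is primitive: its product with `A` is zero -/
  Prim : ℤ → P → Prop
  /-- hard Lefschetz theorem for `X_t` and `A`; `H^2(X_t, ℚ)` is spanned by `P`, since
  `h^2(X_t, O) = 0` -/
  prim : Ler → ∃ k v, 0 < k ∧ Prim k v
  /-- Hodge-Riemann relations for the class `k N^2 + i_* v` of type `(2, 2)` of the fourfold `W`;
  `(i_* v)^2 = 0` and `N^2.i_* v = L.L.v` -/
  riemann : ∀ k v, Prim k v → 0 ≤ k ^ 2 * N4 + 2 * k * T L L v
  riemann_zero : ∀ k v, Prim k v → k ^ 2 * N4 + 2 * k * T L L v = 0 → Zero k v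

/-- If `N^4 ≤ 0` then `N^4 = 0` and `N^2` comes from a fibre. -/
theorem Hodge.result {P : Type} [AddCommGroup P] {T : P → P → P → ℤ} {L : P} {N4 : ℤ}
    {Zero : ℤ → P → Prop} (S : Hodge T L N4 Zero) (hLL : ∀ y, T L L y = 0) (h4 : N4 ≤ 0) :
    N4 = 0 ∧ ∃ k v, 0 < k ∧ Zero k v := by
  have h0 : ∀ i, S.nn i = 0 := by
    have h1 : ∑ i, S.mult i * S.nn i = 0 := by rw [S.nn_sum, hLL, mul_zero]
    rw [Finset.sum_eq_zero_iff_of_nonneg fun i _ =>
      mul_nonneg (S.mult_pos i).le (S.nn_nonneg i)] at h1
    intro i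
    rcases mul_eq_zero.1 (h1 i (Finset.mem_univ i)) with h | h
    · exact absurd h (S.mult_pos i).ne'
    · exact h
  obtain ⟨k, v, hk, hv⟩ := S.prim (S.ler (S.fib hLL h0))
  have h1 := S.riemann k v hv
  have h2 := S.riemann_zero k v hv
  rw [hLL, mul_zero, add_zero] at h1 h2
  have hk2 : 0 < k ^ 2 := by positivity
  have h3 : N4 = 0 := by nlinarith
  exact ⟨h3, k, v, hk, h2 (by rw [h3, mul_zero])⟩

/-- A closed positive current `Θ` in the class of `M = x N + z F`, `x > 0`. The elements of `Mod` are
the pairs `(W', A)`, where `W'` is a smooth projective modification of `W` (also the blow ups of points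
of `X_t` and of the singular fibres), and `A` is an ample class of `W'`. The current of the class of `M` on `W'` given by `Θ` is the
sum of its divisorial part and of a current `R` (Siu); let `D` be the part of the divisorial part with
support in fibres. `W'_t` is the fibre over a very general point, and the restriction of `Θ` to it, a
positive current in the class of `x L`, is the sum of its divisorial part `G` and of a current `S`. The
classes of `R` and `S` are nef on the intersection of general members of multiples of `A`, two for `R`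
and one for `S` (Boucksom: the codimension of their non nef locus is at least two). -/
structure Curr {P : Type} [AddCommGroup P] (T : P → P → P → ℤ) (h : Fin 4 → P → ℕ) (L : P)
    (Zero : ℤ → P → Prop) (Amp : P → Prop) (nsq : P → ℤ) (x z : ℤ) where
  Mod : Type
  /-- the divisorial part has a component which is mapped onto `T` -/
  Hor : Mod → Prop
  /-- `D` is not zero -/
  Ver : Mod → Prop
  /-- the direct image of `A` on `X_t` -/
  a : Mod → P
  /-- the numbers `L.G.A`, `L.S.A` and `G.G.A` on `W'_t` -/
  lg : Mod → ℝ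
  ls : Mod → ℝ
  gg : Mod → ℝ
  lg_nonneg : ∀ w, 0 ≤ lg w
  ls_nonneg : ∀ w, 0 ≤ ls w
  l_sum : ∀ w, lg w + ls w = x * T L L (a w)
  /-- `S.S.A ≥ 0` -/
  ss_nonneg : ∀ w, 0 ≤ x ^ 2 * T L L (a w) - 2 * x * lg w + gg w
  /-- By the Hodge index theorem `G` is numerically equivalent to `c L`, `c ≥ 0`, and `c > 0` if `G` is not
  zero (`L` is not numerically trivial). If `G` has finitely many components then the relation between them and `L` can be chosen
  rational. If there are infinitely many components then there are numerically equivalent effective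
  divisors `B` and `C`, not zero, without common components, supported on components of `G`;
  `B.B.A = B.C.A ≥ 0`, so `B` is numerically equivalent to a multiple of `L`. In both cases a positive
  multiple of `L` is effective, since `H^1(X_t, O) = 0`. -/
  index : ∀ w, lg w = 0 → 0 ≤ gg w → Hor w → ∃ k : ℤ, 0 < k ∧ h 0 (k • L) ≠ 0
  /-- the numbers `M.M.A.A`, `M.D.A.A` and `D.D.A.A` on `W'` -/
  mm : Mod → ℝ
  md : Mod → ℝ
  dd : Mod → ℝ
  /-- `M` is nef over `T` -/
  md_nonneg : ∀ w, 0 ≤ md w
  /-- Zariski's lemma -/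
  dd_nonpos : ∀ w, dd w ≤ 0
  /-- Zariski's lemma: in this case `D` is a combination of fibres, and `M.F.A.A > 0` -/
  zariski : ∀ w, Ver w → dd w = 0 → 0 < md w
  /-- `R.R.A.A ≥ 0`, and `R` has the class of `M - D` -/
  rr_nonneg : ∀ w, ¬ Hor w → 0 ≤ mm w - 2 * md w + dd w
  /-- then `M^2 = x (x N^2 + i_* (2 z L))` is zero -/
  mm_zero : Zero x ((2 * z) • L) → ∀ w, mm w = 0
  /-- `m B` is the restriction to `X_t` of an ample class of a suitable `W'`, which dominates a model of
  `Y` on which `B` is ample over `T`; `nsq B` is the number `N.N.B.B` for an extension of `B` to `W'`, the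
  same for all extensions because `N^2` is zero on the divisors in fibres -/
  mm_amp : ∀ B, Amp B → ∃ w, ∃ m : ℝ, 0 < m ∧
    mm w = m ^ 2 * (x ^ 2 * nsq B + 2 * x * z * T L B B)
  /-- the Euler characteristic of `- m M` on `W` -/
  chi : ℕ → ℤ
  /-- This is `χ(T, O) - χ(T, λ^(-1)) = deg λ`, because `R^1 π_* O_Y = R^2 π_* O_Y = 0` and
  `R^3 π_* O_Y = λ^(-1)` (Kollár), and positive since the family over `T` is not isotrivial. -/
  chi_zero : 0 < chi 0
  /-- Riemann-Roch theorem; `M^2 = 0` in `H^4(W, ℚ)` -/
  chi_linear : Zero x ((2 * z) • L) → ∃ b : ℤ, ∀ m : ℕ, chi m = chi 0 + m * b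
  /-- Then all the Lelong numbers of `Θ` are zero, since the Lelong number at a point is the one along
  the exceptional divisor of its blow up, and the multiplier ideals are trivial (Skoda). The direct
  images of `K_W + m M` on `T` are torsion free (Matsumura; Fujino and Matsumura), of rank
  `h^i(X_t, m x L)`. So they are zero, and `H^i(W, K_W + m M)`, dual to `H^(4-i)(W, - m M)`, is zero. -/
  torsion_free : (∀ w, ¬ Hor w ∧ ¬ Ver w) → ∀ m : ℕ, 0 < m → (∀ i, h i ((m * x) • L) = 0) →
    chi m = 0

namespace Curr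

variable {P : Type} [AddCommGroup P] {T : P → P → P → ℤ} {h : Fin 4 → P → ℕ} {L : P}
  {Zero : ℤ → P → Prop} {Amp : P → Prop} {nsq : P → ℤ} {x z : ℤ}
  (C : Curr T h L Zero Amp nsq x z)

include C

/-- no horizontal divisors -/
theorem not_hor (hLL : ∀ y, T L L y = 0) (hac : ∀ k : ℤ, 0 < k → ∀ i, h i (k • L) = 0)
    (w : C.Mod) : ¬ C.Hor w := by
  intro hw
  have h1 := C.l_sum w
  have h2 := C.ss_nonneg w
  rw [hLL, Int.cast_zero, mul_zero] at h1 h2
  have h3 : C.lg w = 0 := by linarith [C.lg_nonneg w, C.ls_nonneg w]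
  rw [h3, mul_zero, sub_zero, zero_add] at h2
  obtain ⟨k, hk, hne⟩ := C.index w h3 h2 hw
  exact hne (hac k hk 0)

/-- `M.M.A.A ≥ 0` for a pseudoeffective class `M = x N + z F` and all ample classes of all models -/
theorem number (hLL : ∀ y, T L L y = 0) (hac : ∀ k : ℤ, 0 < k → ∀ i, h i (k • L) = 0)
    (B : P) (hB : Amp B) : 0 ≤ x ^ 2 * nsq B + 2 * x * z * T L B B := by
  obtain ⟨w, m, hm, hw⟩ := C.mm_amp B hB
  have h1 := C.rr_nonneg w (C.not_hor hLL hac w)
  have h2 : (0 : ℝ) ≤ m ^ 2 * (x ^ 2 * nsq B + 2 * x * z * T L B B) := by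
    rw [← hw]
    linarith [C.md_nonneg w, C.dd_nonpos w]
  have h3 := nonneg_of_mul_nonneg_right h2 (by positivity)
  exact_mod_cast h3

/-- The last step: if `M^2 = 0` there is a contradiction. -/
theorem false (hx : 0 < x) (hLL : ∀ y, T L L y = 0)
    (hac : ∀ k : ℤ, 0 < k → ∀ i, h i (k • L) = 0) (hZ : Zero x ((2 * z) • L)) : False := by
  have h0 : ∀ w, ¬ C.Hor w ∧ ¬ C.Ver w := by
    intro w
    have hw := C.not_hor hLL hac w
    refine ⟨hw, fun hv => ?_⟩
    have h1 := C.rr_nonneg w hw
    rw [C.mm_zero hZ w] at h1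
    have h2 := C.md_nonneg w
    have h3 := C.dd_nonpos w
    have h4 := C.zariski w hv (by linarith)
    linarith
  have h1 : ∀ m : ℕ, 0 < m → C.chi m = 0 := fun m hm =>
    C.torsion_free h0 m hm (hac _ (by positivity))
  obtain ⟨b, hb⟩ := C.chi_linear hZ
  have h2 := hb 1
  have h3 := hb 2
  rw [h1 1 one_pos] at h2
  rw [h1 2 two_pos] at h3
  push_cast at h2 h3
  have h4 := C.chi_zero
  linarith

end Curr

/-- The class `N^2` and the pseudoeffective classes `x N + z F`. `Amp B` says that `B` is an ample class of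
`X_t`. -/
structure Ends {P : Type} [AddCommGroup P] (T : P → P → P → ℤ) (h : Fin 4 → P → ℕ) (L : P) (N4 : ℤ)
    (Zero : ℤ → P → Prop) (Psef : ℤ → ℤ → Prop) (Amp : P → Prop) (nsq : P → ℤ) where
  hodge : Hodge T L N4 Zero
  zero_mul : ∀ (j : ℤ) k v, j ≠ 0 → Zero k v → Zero (j * k) (j • v)
  /-- intersection with an extension of `B` to `W` -/
  zero_nsq : ∀ k v B, Zero k v → k * nsq B + T v B B = 0
  /-- a pseudoeffective class contains a closed positive current (Demailly) -/
  curr : ∀ x z, 0 < x → Psef x z → Nonempty (Curr T h L Zero Amp nsq x z)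

namespace Ends

variable {P : Type} [AddCommGroup P] {T : P → P → P → ℤ} {h : Fin 4 → P → ℕ} {L : P} {N4 : ℤ}
  {Zero : ℤ → P → Prop} {Psef : ℤ → ℤ → Prop} {Amp : P → Prop} {nsq : P → ℤ}
  (E : Ends T h L N4 Zero Psef Amp nsq)

include E

/-- the first step -/
theorem exists_v (hLL : ∀ y, T L L y = 0) (h4 : N4 ≤ 0) : N4 = 0 ∧ ∃ k v, 0 < k ∧ Zero k v :=
  E.hodge.result hLL h4

/-- If `x N + z F` is pseudoeffective then `x v.B.B ≤ 2 z k L.B.B` for all ample `B`. -/
theorem number (hLL : ∀ y, T L L y = 0) (hac : ∀ k : ℤ, 0 < k → ∀ i, h i (k • L) = 0)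
    {k : ℤ} {v : P} (hk : 0 < k) (hZ : Zero k v) {x z : ℤ} (hx : 0 < x) (hp : Psef x z) (B : P)
    (hB : Amp B) : x * T v B B ≤ 2 * z * k * T L B B := by
  obtain ⟨C⟩ := E.curr x z hx hp
  have h1 := C.number hLL hac B hB
  have h2 := E.zero_nsq k v B hZ
  have h3 : 0 ≤ x * (2 * z * k * T L B B - x * T v B B) := by
    have h4 : k * (x ^ 2 * nsq B + 2 * x * z * T L B B) =
        x * (2 * z * k * T L B B - x * T v B B) := by linear_combination x ^ 2 * h2
    rw [← h4]
    exact mul_nonneg hk.le h1
  have h5 := nonneg_of_mul_nonneg_right h3 hx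
  linarith

/-- the last step: `v` is not a multiple of `L` -/
theorem false_of {k a : ℤ} (hLL : ∀ y, T L L y = 0)
    (hac : ∀ k : ℤ, 0 < k → ∀ i, h i (k • L) = 0) (hk : 0 < k) (hZ : Zero k (a • L))
    (hp : Psef (2 * k) a) : False := by
  obtain ⟨C⟩ := E.curr (2 * k) a (by positivity) hp
  refine C.false (by positivity) hLL hac ?_
  have h1 := E.zero_mul 2 k (a • L) two_ne_zero hZ
  rwa [smul_smul] at h1

end Ends

end Pool.Agent.H60.N1
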