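import Mathlib

/-!
# MP_5ee2d0_ag, numerical dimension one: polarisation
-/

namespace Pool.Agent.H60.N1

/-- If the ratio of the quadratic forms `T v` and `T L` is the same for all ample classes then `v` is a
rational multiple of `L`. -/
theorem polar {P : Type} [AddCommGroup P] {T : P → P → P → ℤ} {L v H : P} {Amp : P → Prop}
    (add : ∀ x y z w, T x y (z + w) = T x y z + T x y w)
    (symm12 : ∀ x y z, T x y z = T y x z) (symm23 : ∀ x y z, T x y z = T x z y)
    (amp_H : Amp H) (amp : ∀ y, ∃ m₀ : ℤ, ∀ m, m₀ ≤ m → Amp (m • H + y)) (pos : 0 < T L H H)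
    (index : ∀ z, T H H z = 0 → T H z z = 0 → z = 0)
    (key : ∀ A B, Amp A → Amp B → T v A A * T L B B ≤ T v B B * T L A A) :
    ∃ n a : ℤ, 0 < n ∧ n • v = a • L := by
  -- linearity
  have zsmul : ∀ (k : ℤ) x y z, T x y (k • z) = k * T x y z := by
    intro k x y z
    have h := map_zsmul (AddMonoidHom.mk' (T x y) (add x y)) k z
    simpa using h
  have add2 : ∀ x y z w, T x (y + z) w = T x y w + T x z w := fun x y z w => by
    rw [symm23 x (y + z) w, add, symm23 x w y, symm23 x w z]
  have zsmul2 : ∀ (k : ℤ) x y z, T x (k • y) z = k * T x y z := fun k x y z => by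
    rw [symm23, zsmul, symm23 x z y]
  have add1 : ∀ x y z w, T (x + y) z w = T x z w + T y z w := fun x y z w => by
    rw [symm12 (x + y), add2, symm12 z x, symm12 z y]
  have zsmul1 : ∀ (k : ℤ) x y z, T (k • x) y z = k * T x y z := fun k x y z => by
    rw [symm12, zsmul2, symm12 y x]
  -- the quadratic form of `u`
  obtain ⟨u, hu⟩ : ∃ u, u = T L H H • v + (-T v H H) • L := ⟨_, rfl⟩
  have hyy : ∀ y, T u y y = 0 := by
    intro y
    obtain ⟨m₀, hm₀⟩ := amp y
    have h1 : ∀ m, m₀ ≤ m → 2 * m * (T v H y * T L H H - T v H H * T L H y) +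
        (T v y y * T L H H - T v H H * T L y y) = 0 := by
      intro m hm
      have h2 := key _ _ (hm₀ m hm) amp_H
      have h3 := key _ _ amp_H (hm₀ m hm)
      have e : ∀ x, T x (m • H + y) (m • H + y) = m ^ 2 * T x H H + 2 * m * T x H y + T x y y := by
        intro x
        rw [add, zsmul, add2, add2, zsmul2, zsmul2, symm23 x y H]
        ring
      rw [e, e] at h2 h3
      linarith
    have h4 := h1 m₀ le_rfl
    have h5 := h1 (m₀ + 1) (by linarith)
    have h6 : T v H y * T L H H - T v H H * T L H y = 0 := by linarith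
    rw [h6, mul_zero, zero_add] at h4
    rw [hu, add1, zsmul1, zsmul1]
    linarith
  have hyz : ∀ y z, T u y z = 0 := by
    intro y z
    have h1 := hyy (y + z)
    rw [add, add2, add2, hyy, hyy, symm23 u z y] at h1
    linarith
  have hu0 : u = 0 := by
    apply index
    · rw [symm23, symm12]
      exact hyz H H
    · rw [symm12]
      exact hyz H u
  refine ⟨T L H H, T v H H, pos, ?_⟩
  rw [hu0] at hu
  have h2 := hu.symm
  rw [neg_smul, ← sub_eq_add_neg] at h2
  exact sub_eq_zero.1 h2

end Pool.Agent.H60.N1
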