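import Pool.Agent.H96.N1.Core
import Pool.Agent.H60.N1.Ends
import Pool.Agent.H60.N1.Polar

/-! # MP_5ee2d0_ag, numerical dimension one: `L.v` is not zero -/

namespace Pool.Agent.H96.N1.Pencil

open Pool.Agent.H60.N1

variable {P : Type} [AddCommGroup P] {T : P → P → P → ℤ} {c : P → ℤ} {Nef : P → Prop}
  {H L : P} {Triv : (P → ℤ) → Prop} {Run : Prop} (S : Pencil T c Nef H L Triv Run)

/-- If `L.v = 0` the thresholds give pseudoeffective classes. -/
theorem psef (hT : Cubic T) (hLL : ∀ y, T L L y = 0) {κ : ℤ} {v : P} (hκ : 0 < κ)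
    (hZ : S.Zero κ v) {x : P} (hnull : T v L x = 0) (hq : 0 < T L x x)
    (hext : ∃ m : ℤ, 0 < m ∧ ∃ D, S.rho D = m • x ∧ S.Ext D) {X Z : ℤ} (hX : 0 < X)
    (hXZ : X * T v x x ≤ Z * (2 * κ * T L x x)) : S.Psef X Z := by
  obtain ⟨m, hm, D, hD, hE⟩ := hext
  obtain ⟨K, t1, ht1, ht⟩ := S.thr hT hLL hκ hZ hE hm hD hq
  refine S.limit D X Z hX fun j hj => ?_
  obtain ⟨t, h1, h2, h3⟩ : ∃ t : ℤ, t1 ≤ t ∧ (j : ℤ) ≤ t ∧ (j * (K * X) : ℝ) ≤ t := by
    refine ⟨max (max t1 j) ⌈(j * (K * X) : ℝ)⌉, ?_, ?_, ?_⟩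
    · exact (le_max_left _ _).trans (le_max_left _ _)
    · exact (le_max_right _ _).trans (le_max_left _ _)
    · exact (Int.le_ceil _).trans (by exact_mod_cast le_max_right _ _)
  obtain ⟨a, ha1, -, ha3⟩ := ht t h1
  refine ⟨m * t, a, ?_, ha1, ?_⟩
  · have hj' : (0 : ℤ) < j := by exact_mod_cast hj
    nlinarith
  have hd : (0 : ℝ) < 2 * κ * T L x x := by
    have h4 : (0 : ℤ) < 2 * κ * T L x x := by positivity
    exact_mod_cast h4
  have hXr : (0 : ℝ) < X := by exact_mod_cast hX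
  have hmr : (0 : ℝ) < m := by exact_mod_cast hm
  have htr : (0 : ℝ) < t := by
    have h4 : 0 < t := lt_of_lt_of_le ht1 h1
    exact_mod_cast h4
  have hjr : (0 : ℝ) ≤ j := by positivity
  have h5 : (X : ℝ) * (T v x x / (2 * κ * T L x x)) ≤ Z := by
    rw [← mul_div_assoc, div_le_iff₀ hd]
    exact_mod_cast hXZ
  rw [hnull] at ha3
  have h6 : (a : ℝ) ≤ m * (t * (T v x x / (2 * κ * T L x x)) + K) := by
    refine ha3.trans (le_of_eq ?_)
    push_cast
    ring
  have h7 : (a : ℝ) * X ≤ m * t * Z + m * (K * X) := by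
    have h8 := mul_le_mul_of_nonneg_right h6 hXr.le
    have h9 := mul_le_mul_of_nonneg_left h5 (mul_pos hmr htr).le
    linarith
  have h10 : (j : ℝ) * (a * X - m * t * Z) ≤ m * t := by
    calc (j : ℝ) * (a * X - m * t * Z) ≤ j * (m * (K * X)) :=
          mul_le_mul_of_nonneg_left (by linarith) hjr
      _ = m * (j * (K * X)) := by ring
      _ ≤ m * t := mul_le_mul_of_nonneg_left h3 hmr.le
  exact_mod_cast h10

/-- (E5) `L.v` is not zero: otherwise the thresholds and the numbers `M.M.A.A` show that `v` is a multiple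
of `L`, and the last step applies. -/
theorem null (hT : Cubic T) (hLL : ∀ y, T L L y = 0) {h : Fin 4 → P → ℕ} {Amp : P → Prop}
    {nsq : P → ℤ} (E : Ends T h L (S.Q S.N S.N S.N S.N) S.Zero S.Psef Amp nsq)
    (hac : ∀ k : ℤ, 0 < k → ∀ i, h i (k • L) = 0) {κ : ℤ} {v : P} (hκ : 0 < κ)
    (hZ : S.Zero κ v) (hnull : ∀ y, T v L y = 0)
    (hext : ∀ x, Amp x → ∃ m : ℤ, 0 < m ∧ ∃ D, S.rho D = m • x ∧ S.Ext D)
    (hpos : ∀ x, Amp x → 0 < T L x x) (hH : Amp H)
    (hamp : ∀ y, ∃ m₀ : ℤ, ∀ m, m₀ ≤ m → Amp (m • H + y))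
    (index : ∀ z, T H H z = 0 → T H z z = 0 → z = 0) : False := by
  have add : ∀ x y z w, T x y (z + w) = T x y z + T x y w := by
    intro x y z w
    rw [hT.symm23, hT.symm12, hT.add, hT.symm12 z, hT.symm12 w, hT.symm23 x z, hT.symm23 x w]
  have key : ∀ A B, Amp A → Amp B → T v A A * T L B B ≤ T v B B * T L A A := by
    intro A B hA hB
    have h1 := hpos B hB
    have h2 := S.psef hT hLL hκ hZ (hnull B) h1 (hext B hB)
      (X := 2 * κ * T L B B) (Z := T v B B) (by positivity) (by rw [mul_comm])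
    have h3 := E.number hLL hac hκ hZ (by positivity) h2 A hA
    have h4 : 0 ≤ 2 * κ * (T v B B * T L A A - T v A A * T L B B) := by linarith
    have h5 := nonneg_of_mul_nonneg_right h4 (by positivity : (0 : ℤ) < 2 * κ)
    linarith
  obtain ⟨n, a, hn, hna⟩ := polar add hT.symm12 hT.symm23 hH hamp (hpos H hH) index key
  have hZ' : S.Zero (n * κ) (a • L) := by
    rw [← hna]
    exact E.zero_mul n κ v hn.ne' hZ
  refine E.false_of hLL hac (k := n * κ) (a := a) (by positivity) hZ' ?_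
  refine S.psef hT hLL hκ hZ (hnull H) (hpos H hH) (hext H hH) (by positivity) ?_
  have hz : ∀ (k : ℤ) x y z, T (k • x) y z = k * T x y z := by
    intro k x y z
    have h := map_zsmul (AddMonoidHom.mk' (fun x => T x y z) fun x x' => hT.add x x' y z) k x
    simpa using h
  have h1 : n * T v H H = a * T L H H := by rw [← hz, ← hz, hna]
  apply le_of_eq
  linear_combination 2 * κ * h1

end Pool.Agent.H96.N1.Pencil
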